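import Pool.Agent.H90.HW.Stmts2

/-!
The case of a prime ideal in the dimension version.
-/

namespace Pool.Agent.H90.HW

open Pool.Agent.H73.Zeta MvPolynomial

section Prime

/-- `Ev C` depends only on the counts at the primes not dividing a fixed number. -/
private theorem prime_ev_congr {C : Counts → Prop} (hC : Closed C) {N N' : Counts} (M : ℕ)
    (hM : 0 < M) (h : ∀ (p : Nat.Primes) (k : ℕ), ¬ (p : ℕ) ∣ M → N p k = N' p k) (hN : Ev C N') : Ev C N := by
  obtain ⟨M₀, h0, h1⟩ := hN
  refine ⟨M₀ * M, Nat.mul_pos h0 hM, fun M' hM' hd => ?_⟩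
  refine hC.congr ?_ (h1 M' hM' (dvd_trans (Dvd.intro _ rfl) hd))
  intro p k _
  unfold restr
  split_ifs with hp
  · rfl
  · exact (h p k (fun hpM => hp (hpM.trans (dvd_trans (Dvd.intro_left _ rfl) hd)))).symm

private theorem prime_split {α : Type*} [Finite α] (P Q : α → Prop) :
    cnt P = cnt (fun x => Q x ∧ P x) + cnt (fun x => P x ∧ ¬ Q x) := by
  classical
  have := Fintype.ofFinite α
  rw [cnt_sum, cnt_sum, cnt_sum, ← Finset.sum_add_distrib]
  refine Finset.sum_congr rfl fun x _ => ?_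
  by_cases h1 : P x <;> by_cases h2 : Q x <;> simp [h1, h2]

private theorem prime_comp {K : Type} [Field K] {n m : ℕ} (φ : Fin m → MvPolynomial (Fin n) ℤ)
    (c : MvPolynomial (Fin m) ℤ) (x : Fin n → K) :
    aeval x (aeval φ c) = aeval (fun j => aeval x (φ j)) c :=
  comp_aeval_apply φ (aeval x) c

/-- The bijection between the two open parts. -/
private theorem prime_bij {K : Type} [Field K] {n m : ℕ}
    (F : Finset (MvPolynomial (Fin n) ℤ)) (φ : Fin m → MvPolynomial (Fin n) ℤ)
    (c : MvPolynomial (Fin m) ℤ) (R : Fin n → MvPolynomial (Fin m) ℤ)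
    (H : Finset (MvPolynomial (Fin m) ℤ))
    (h1 : ∀ x : Fin n → K, (∀ f ∈ F, aeval x f = 0) →
      ∀ i, aeval x (aeval φ c * X i - aeval φ (R i)) = 0)
    (h2 : ∀ (u : Fin m → K) (y : Fin n → K), aeval u c ≠ 0 →
      (∀ i, aeval u c * y i = aeval u (R i)) →
      ((∀ g ∈ H, aeval u g = 0) ↔ ((∀ f ∈ F, aeval y f = 0) ∧ ∀ j, aeval y (φ j) = u j))) :
    cnt (fun x : Fin n → K => (∀ f ∈ F, aeval x f = 0) ∧ ¬ aeval x (aeval φ c) = 0) =
      cnt (fun u : Fin m → K => (∀ g ∈ H, aeval u g = 0) ∧ ¬ aeval u c = 0) := by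
  have hx : ∀ x : Fin n → K, (∀ f ∈ F, aeval x f = 0) → ∀ i,
      aeval (fun j => aeval x (φ j)) c * x i = aeval (fun j => aeval x (φ j)) (R i) := by
    intro x hx i
    have := h1 x hx i
    rw [map_sub, map_mul, aeval_X, prime_comp, prime_comp, sub_eq_zero] at this
    exact this
  have hu : ∀ u : Fin m → K, ¬ aeval u c = 0 → ∀ i,
      aeval u c * (aeval u (R i) / aeval u c) = aeval u (R i) := by
    intro u hu i
    field_simp
  unfold cnt
  congr 1
  refine Nat.card_congr
    { toFun := fun x => ⟨fun j => aeval x.1 (φ j), ?_, ?_⟩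
      invFun := fun u => ⟨fun i => aeval u.1 (R i) / aeval u.1 c, ?_, ?_⟩
      left_inv := ?_
      right_inv := ?_ }
  · have h0 : ¬ aeval (fun j => aeval x.1 (φ j)) c = 0 := by
      rw [← prime_comp]; exact x.2.2
    exact (h2 _ x.1 h0 (hx x.1 x.2.1)).2 ⟨x.2.1, fun j => rfl⟩
  · rw [← prime_comp]; exact x.2.2
  · exact ((h2 u.1 _ u.2.2 (hu u.1 u.2.2)).1 u.2.1).1
  · rw [prime_comp]
    have := ((h2 u.1 _ u.2.2 (hu u.1 u.2.2)).1 u.2.1).2
    rw [funext this]
    exact u.2.2
  · intro x
    apply Subtype.ext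
    funext i
    have h0 : ¬ aeval (fun j => aeval x.1 (φ j)) c = 0 := by
      rw [← prime_comp]; exact x.2.2
    show aeval (fun j => aeval x.1 (φ j)) (R i) / aeval (fun j => aeval x.1 (φ j)) c = x.1 i
    rw [← hx x.1 x.2.1 i]
    field_simp
  · intro u
    apply Subtype.ext
    exact funext ((h2 u.1 _ u.2.2 (hu u.1 u.2.2)).1 u.2.1).2

theorem prime (hB : SBirational) (hI : SInc) (hH : SHomog) (hE : SEvClosed) : SPrime := by
  classical
  intro C hC d hA n F hP hd
  obtain ⟨φ, c, R, hc, hR⟩ := hB n d (idealQ F) hP hd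
  have hM : ∀ i : Fin n, ∃ M : ℕ, 0 < M ∧
      ∀ (K : Type) [Field K] (x : Fin n → K), (M : K) ≠ 0 → (∀ g ∈ F, aeval x g = 0) →
        aeval x (aeval φ c * X i - aeval φ (R i)) = 0 := by
    intro i
    exact hI n F _ (hR i)
  choose M hM0 hM1 using hM
  choose e f' hf' using fun f => hH n (d + 1) c R f
  set H : Finset (MvPolynomial (Fin (d + 1)) ℤ) :=
    F.image f' ∪ Finset.univ.image (fun j : Fin (d + 1) => f' (φ j) - c ^ e (φ j) * X j) with hHdef
  refine ⟨aeval φ c, hc, ?_⟩
  intro inst hE1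
  have hEC := hE C hC
  have h1 : Ev C (affCount H) := hA H
  have h2 : Ev C (affCount (insert c H)) := hA (insert c H)
  have h3 := hEC.add (hEC.add hE1 h1) (hEC.neg h2)
  refine prime_ev_congr hC (∏ i, M i) (Finset.prod_pos fun i _ => hM0 i) ?_ h3
  intro p k hp
  have : Fact (p : ℕ).Prime := ⟨p.2⟩
  have hpM : ∀ i, (M i : FF p k) ≠ 0 := by
    intro i h0
    apply hp
    rw [CharP.cast_eq_zero_iff (FF p k) (p : ℕ)] at h0
    exact h0.trans (Finset.dvd_prod_of_mem M (Finset.mem_univ i))
  have hbij := prime_bij (K := FF p k) F φ c R H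
    (fun x hx i => hM1 i (FF p k) x (hpM i) hx) (by
      intro u y hu hy
      have hf : ∀ f, aeval u (f' f) = aeval u c ^ e f * aeval y f := fun f => hf' f _ u y hy
      constructor
      · intro hg
        constructor
        · intro f hfF
          have := hg (f' f) (Finset.mem_union_left _ (Finset.mem_image_of_mem _ hfF))
          rw [hf] at this
          exact (mul_eq_zero.1 this).resolve_left (pow_ne_zero _ hu)
        · intro j
          have := hg (f' (φ j) - c ^ e (φ j) * X j) (Finset.mem_union_right _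
            (Finset.mem_image_of_mem _ (Finset.mem_univ j)))
          rw [map_sub, hf, map_mul, map_pow, aeval_X, ← mul_sub] at this
          exact sub_eq_zero.1 ((mul_eq_zero.1 this).resolve_left (pow_ne_zero _ hu))
      · rintro ⟨hF, hφ⟩ g hg
        rcases Finset.mem_union.1 hg with hg | hg
        · obtain ⟨f, hfF, rfl⟩ := Finset.mem_image.1 hg
          rw [hf, hF f hfF, mul_zero]
        · obtain ⟨j, _, rfl⟩ := Finset.mem_image.1 hg
          rw [map_sub, hf, map_mul, map_pow, aeval_X, hφ j, sub_self])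
  have hs1 := prime_split (fun x : Fin n → FF p k => ∀ f ∈ F, aeval x f = 0)
    (fun x => aeval x (aeval φ c) = 0)
  have hs2 := prime_split (fun u : Fin (d + 1) → FF p k => ∀ f ∈ H, aeval u f = 0)
    (fun u => aeval u c = 0)
  have e1 : affCount F p k = cnt (fun x : Fin n → FF p k => ∀ f ∈ F, aeval x f = 0) := rfl
  have e2 : affCount H p k = cnt (fun x : Fin (d + 1) → FF p k => ∀ f ∈ H, aeval x f = 0) := rfl
  have e3 : affCount (insert (aeval φ c) F) p k = cnt (fun x : Fin n → FF p k =>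
      aeval x (aeval φ c) = 0 ∧ ∀ f ∈ F, aeval x f = 0) := by
    unfold affCount
    exact cnt_congr fun x => by rw [Finset.forall_mem_insert]
  have e4 : affCount (insert c H) p k = cnt (fun x : Fin (d + 1) → FF p k =>
      aeval x c = 0 ∧ ∀ f ∈ H, aeval x f = 0) := by
    unfold affCount
    exact cnt_congr fun x => by rw [Finset.forall_mem_insert]
  rw [e1, hs1, hbij, e4, e2, hs2, e3]
  ring

end Prime

end Pool.Agent.H90.HW
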